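import Mathlib
import Pool.Agent.Lib.MP_b6a3e4_an.Final

set_option autoImplicit false

namespace Pool.Agent.Results.MP_b6a3e4_an.BanachCounterexample

/-- A separable complex Banach space operator satisfying (H) with `a = 1`, `b = 2` whose multiples
`l T`, `1/2 < l < 1` real, have no common hypercyclic vector. -/
theorem result :
    ∃ (X : Type) (_ : NormedAddCommGroup X) (_ : NormedSpace ℂ X) (_ : CompleteSpace X)
      (_ : TopologicalSpace.SeparableSpace X) (T : X →L[ℂ] X),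
      (∀ α : ℝ, 1 < α → α < 2 →
        Dense ((Submodule.span ℂ {x : X | ∃ z : ℂ, ‖z‖ < α ∧ T x = z • x}) : Set X) ∧
        Dense ((Submodule.span ℂ {x : X | ∃ z : ℂ, α < ‖z‖ ∧ T x = z • x}) : Set X)) ∧
      ∀ x : X, ∃ l : ℝ, 1 / 2 < l ∧ l < 1 ∧
        ¬ Dense (Set.range (fun n : ℕ => (((l : ℂ) • T) ^ n) x)) := by
  have hsep : TopologicalSpace.SeparableSpace Pool.Agent.Lib.MP_b6a3e4_an.XX :=
    Pool.Agent.Lib.MP_b6a3e4_an.separable_L1
  refine ⟨Pool.Agent.Lib.MP_b6a3e4_an.XX × Pool.Agent.Lib.MP_b6a3e4_an.XX, inferInstance,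
    inferInstance, inferInstance, inferInstance,
    Pool.Agent.Lib.MP_b6a3e4_an.dbl Pool.Agent.Lib.MP_b6a3e4_an.TT, ?_,
    Pool.Agent.Lib.MP_b6a3e4_an.no_common⟩
  intro α h1 h2
  have h0 : 0 ≤ α := by linarith
  lift α to NNReal using h0
  have h3 : α < 2 := by exact_mod_cast h2
  have := Pool.Agent.Lib.MP_b6a3e4_an.hyp_H α (by exact_mod_cast h1) (by exact_mod_cast h3)
  exact this

end Pool.Agent.Results.MP_b6a3e4_an.BanachCounterexample
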