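import Mathlib
import Pool.Agent.Lib.MP_b6a3e4_an.SzFinal

set_option autoImplicit false

namespace Pool.Agent.Results.MP_b6a3e4_an.StrongMeasureZero

/-- For `0 < a < b` and a set `A` of real scalars in `(1/b, 1/a)`: `A` has strong measure zero if
and only if, for every operator `T` on a separable complex Fréchet space satisfying (H) on
`(a, b)`, the multiples `l T`, `l ∈ A`, have a common hypercyclic vector. -/
theorem result :
    ∀ (a b : ℝ), 0 < a → a < b → ∀ A : Set ℝ, A ⊆ Set.Ioo b⁻¹ a⁻¹ →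
      ((∀ ε : ℕ → ℝ, (∀ n, 0 < ε n) → ∃ c : ℕ → ℝ, A ⊆ ⋃ n, Set.Icc (c n) (c n + ε n)) ↔
        ∀ (X : Type) [AddCommGroup X] [Module ℂ X] [UniformSpace X] [IsUniformAddGroup X]
          [ContinuousSMul ℂ X] [LocallyConvexSpace ℝ X] [TopologicalSpace.MetrizableSpace X]
          [CompleteSpace X] [TopologicalSpace.SeparableSpace X] (T : X →L[ℂ] X),
          (∀ α : ℝ, a < α → α < b →
            Dense ((Submodule.span ℂ {x : X | ∃ z : ℂ, ‖z‖ < α ∧ T x = z • x}) : Set X) ∧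
            Dense ((Submodule.span ℂ {x : X | ∃ z : ℂ, α < ‖z‖ ∧ T x = z • x}) : Set X)) →
          ∃ x : X, ∀ l ∈ A, Dense (Set.range (fun n : ℕ => (((l : ℂ) • T) ^ n) x))) := by
  intro a b ha hab A hA
  constructor
  · intro hc X _ _ _ _ _ _ _ _ _ T hH
    exact Pool.Agent.Lib.MP_b6a3e4_an.Sz.has_vector ha hab hA hc X T hH
  · intro h ε hε
    by_contra hn
    obtain ⟨X, _, _, _, _, T, h1, h2⟩ :=
      Pool.Agent.Lib.MP_b6a3e4_an.Sz.no_vector ha hab hA hε hn
    exact h2 (h X T h1)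

end Pool.Agent.Results.MP_b6a3e4_an.StrongMeasureZero
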